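import Pool.Agent.H94.T3.Targets
import Pool.Agent.H33.G.TE2

/-!
(T3): trilinear restriction in the cubes of side `R^{1/2}`.
-/

set_option autoImplicit false

namespace Pool.Agent.H96.T3.C3Q

open MeasureTheory Set
open Pool.Agent.H94.T3
open Pool.Agent.H83.G
open scoped ENNReal NNReal RealInnerProductSpace

private lemma cont_e : Continuous (fun x : ℝ => e x) := by
  unfold e
  fun_prop

private lemma cont_ph {m : ℕ} (z : Z m) : Continuous (fun ζ : Z m => ph z ζ) := by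
  unfold ph
  fun_prop

private lemma int_TF {m : ℕ} {G : Z m → ℂ} (hG : TC G) (z : Z m) :
    Integrable (fun ζ : Z m => e (ph z ζ) * G ζ) := by
  refine Continuous.integrable_of_hasCompactSupport ?_ ?_
  · exact (cont_e.comp (cont_ph z)).mul hG.1.continuous
  · exact hG.2.mul_left

private lemma tc_sum {m : ℕ} {ι : Type*} (s : Finset ι) (G : ι → Z m → ℂ)
    (h : ∀ k ∈ s, TC (G k)) : TC (fun ζ => ∑ k ∈ s, G k ζ) := by
  classical
  induction s using Finset.induction_on with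
  | empty =>
    have h0 : (fun ζ : Z m => ∑ k ∈ (∅ : Finset ι), G k ζ) = (0 : Z m → ℂ) := by
      funext ζ
      simp
    rw [h0]
    exact ⟨contDiff_const, HasCompactSupport.zero⟩
  | insert a s ha ih =>
    have h1 := h a (Finset.mem_insert_self _ _)
    have h2 := ih fun k hk => h k (Finset.mem_insert_of_mem hk)
    have h3 : (fun ζ => ∑ k ∈ insert a s, G k ζ) = (G a) + (fun ζ => ∑ k ∈ s, G k ζ) := by
      funext ζ
      rw [Finset.sum_insert ha]; rfl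
    rw [h3]
    exact ⟨h1.1.add h2.1, h1.2.add h2.2⟩

private lemma TF_sum {m : ℕ} {ι : Type*} (s : Finset ι) (G : ι → Z m → ℂ)
    (h : ∀ k ∈ s, TC (G k)) (z : Z m) : TF (fun ζ => ∑ k ∈ s, G k ζ) z = ∑ k ∈ s, TF (G k) z := by
  unfold TF
  rw [← integral_finsetSum _ fun k hk => int_TF (h k hk) z]
  refine integral_congr_ae (Filter.Eventually.of_forall fun ζ => ?_)
  simp only [Finset.mul_sum]

/-- one family in one cube -/
private lemma one_fam {m L N : ℕ} {β : E m → ℂ} {Ψ Ξ : Z m → ℂ} {ψ χ : Z m → ℝ}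
    {δ CP CG CA : ℝ} (hδ : 0 < δ) (hδ1 : δ ≤ 1 / 100) (hCP1 : 1 ≤ CP) (hCG1 : 1 ≤ CG)
    (hCA : 0 < CA)
    (hPK : ∀ (κ R r δ : ℝ) (G : Z m → ℂ) (S : Finset (Pk m))
      (z₁ : Z m), 0 ≤ κ → κ ≤ 3 / 8 → 0 < δ → δ ≤ 1 / 4 → 1 ≤ R → CP ≤ R ^ δ → TC G →
      (∀ ζ, G ζ ≠ 0 → ζ ∈ Rg m κ R⁻¹) →
      (∃ G' : (Fin m → ℤ) → Z m → ℂ, (∀ k, TC (G' k)) ∧
        (∀ k ζ, G' k ζ ≠ 0 → ζ ∈ Rg m (κ + CP * R ^ (-δ)) R⁻¹ ∧
          ‖ζ.1⁻¹ • ζ.2.1 - ctr (sR R) k‖ ≤ 2 * sR R) ∧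
        (∀ k z, TF (G' k) z = ∑ W ∈ S.filter (fun W => W.1 = k), Fp β ψ R δ G W z) ∧
        ∀ k z, ‖TF (G' k) z‖ ≤ CP * ‖TP β (ctr (sR R) k) (sR R) G z‖) ∧
      (Real.sqrt R ≤ r → r ≤ R / CP → ∃ G' : (Fin m → ℤ) → Z m → ℂ, (∀ k, TC (G' k)) ∧
        (∀ k ζ, G' k ζ ≠ 0 → ζ ∈ Rg m (κ + CP * R ^ (-δ)) r⁻¹ ∧
          ‖ζ.1⁻¹ • ζ.2.1 - ctr (sR R) k‖ ≤ 2 * sR R) ∧
        (∀ k z, TF (G' k) z = (χ (r⁻¹ • (z - z₁)) : ℂ) *
          ∑ W ∈ S.filter (fun W => W.1 = k), Fp β ψ R δ G W z) ∧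
        ∀ k z, ‖TF (G' k) z‖ ≤ CP * ‖TP β (ctr (sR R) k) (sR R) G z‖))
    (hGB : ∀ (κ R r : ℝ) (G : Z m → ℂ) (S : Finset (Pk m)) (z₁ : Z m), 0 ≤ κ → κ ≤ 3 / 8 →
      1 ≤ R → CG ≤ R ^ δ → Real.sqrt R ≤ r → r ≤ R / CG → TC G →
      (∀ ζ, G ζ ≠ 0 → ζ ∈ Rg m κ R⁻¹) → (∀ W ∈ S, W.1 ∈ Ks m (sR R)) →
      ∫⁻ z, ‖(χ (r⁻¹ • (z - z₁)) : ℂ) * ∑ W ∈ S, Fp β ψ R δ G W z‖ₑ ^ 2 ≤
        ENNReal.ofReal (CG * R ^ (lo m * δ) * (r / R)) *
          ∑ W ∈ S, al2 N β R δ G W * ENNReal.ofReal (R ^ (((m : ℝ) + 2) / 2)))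
    (hAM : ∀ (κ R A : ℝ) (G : Z m → ℂ) (W : Pk m), 0 ≤ κ → κ ≤ 1 / 2 → 1 ≤ R → 0 < A →
      Cls L κ R A G → al N β R δ G W ≤ CA * A ∧
      al2 N β R δ G W = ENNReal.ofReal (al N β R δ G W ^ 2))
    (hPL : ∀ G : Z m → ℂ, TC G → ∫⁻ z, ‖TF G z‖ₑ ^ 2 = ENNReal.ofReal (∫ ζ, ‖G ζ‖ ^ 2))
    {κ R A a K D : ℝ} {G : Z m → ℂ} {c : E m} (S : Finset (Pk m)) (z₁ : Z m) (hκ : 0 ≤ κ)
    (hκ1 : κ ≤ 3 / 8) (hR : 1 ≤ R) (hR1 : 8 * CP ≤ R ^ δ) (hR2 : CG ≤ R ^ δ) (hK : 1 ≤ K)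
    (hR3 : 12 * K ≤ R ^ δ)
    (hA : 0 < A) (hCls : Cls L κ R A G) (ha : 0 < a)
    (hS : ∀ W ∈ S, W.1 ∈ Ks m (sR R) ∧ ‖ctr (sR R) W.1 - c‖ ≤ 1 / K + sR R ∧
      al N β R δ G W ≤ 2 * a) (hD : (S.card : ℝ) ≤ D) :
    ∃ G' : Z m → ℂ, TC G' ∧
      (∀ ζ, G' ζ ≠ 0 → 1 / 4 ≤ ζ.1 ∧ ζ.1 ≤ 8 ∧ ‖ζ.1⁻¹ • ζ.2.1 - c‖ ≤ 5 / (4 * K) ∧
        |ζ.2.2 - ‖ζ.2.1‖ ^ 2 / ζ.1| ≤ 2 * (Real.sqrt R)⁻¹) ∧
      (∀ z, TF G' z = (χ ((Real.sqrt R)⁻¹ • (z - z₁)) : ℂ) * ∑ W ∈ S, Fp β ψ R δ G W z) ∧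
      ∫ ζ, ‖G' ζ‖ ^ 2 ≤ CG * R ^ (lo m * δ) * (4 * a ^ 2 * D) * R ^ (((m : ℝ) + 1) / 2) := by
  classical
  have hR0 : 0 < R := by linarith
  have hRδ : 0 < R ^ δ := Real.rpow_pos_of_pos hR0 _
  have hsq : Real.sqrt R = R ^ (1 / 2 : ℝ) := Real.sqrt_eq_rpow R
  have hsq0 : 0 < Real.sqrt R := Real.sqrt_pos.2 hR0
  have hδs : R ^ δ ≤ Real.sqrt R := by
    rw [hsq]; exact Real.rpow_le_rpow_of_exponent_le hR (by linarith)
  have hss : Real.sqrt R * Real.sqrt R = R := Real.mul_self_sqrt hR0.le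
  have hrC : ∀ C : ℝ, 1 ≤ C → C ≤ R ^ δ → Real.sqrt R ≤ R / C := by
    intro C hC hCR
    rw [le_div_iff₀ (by linarith)]
    calc Real.sqrt R * C ≤ Real.sqrt R * Real.sqrt R :=
          mul_le_mul_of_nonneg_left (hCR.trans hδs) hsq0.le
      _ = R := hss
  obtain ⟨-, hP⟩ := hPK κ R (Real.sqrt R) δ G S z₁ hκ hκ1 hδ (by linarith) hR (by linarith)
    hCls.1 hCls.2.1
  obtain ⟨G', g1, g2, g3, -⟩ := hP le_rfl (hrC CP hCP1 (by linarith))
  have hTF : ∀ z, TF (fun ζ => ∑ k ∈ S.image Prod.fst, G' k ζ) z =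
      (χ ((Real.sqrt R)⁻¹ • (z - z₁)) : ℂ) * ∑ W ∈ S, Fp β ψ R δ G W z := by
    intro z
    rw [TF_sum _ _ fun k _ => g1 k]
    simp_rw [g3, ← Finset.mul_sum]
    congr 1
    exact Finset.sum_fiberwise_of_maps_to (fun W hW => Finset.mem_image_of_mem _ hW) _
  have hTC : TC (fun ζ => ∑ k ∈ S.image Prod.fst, G' k ζ) := tc_sum _ _ fun k _ => g1 k
  refine ⟨fun ζ => ∑ k ∈ S.image Prod.fst, G' k ζ, hTC, ?_, hTF, ?_⟩
  · intro ζ hζ
    obtain ⟨k, hk, hkz⟩ := Finset.exists_ne_zero_of_sum_ne_zero hζ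
    obtain ⟨W, hW, rfl⟩ := Finset.mem_image.1 hk
    obtain ⟨⟨q1, q2, -, q4⟩, q5⟩ := g2 _ ζ hkz
    have hκ' : κ + CP * R ^ (-δ) ≤ 1 / 2 := by
      have : CP * R ^ (-δ) ≤ 1 / 8 := by
        rw [Real.rpow_neg hR0.le, ← div_eq_mul_inv, div_le_iff₀ hRδ]
        linarith
      linarith
    refine ⟨by linarith, by linarith, ?_, ?_⟩
    · have e1 : ζ.1⁻¹ • ζ.2.1 - c = (ζ.1⁻¹ • ζ.2.1 - ctr (sR R) W.1) + (ctr (sR R) W.1 - c) := by
        abel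
      rw [e1]
      have e2 := (hS W hW).2.1
      have e3 : 3 * sR R ≤ 1 / (4 * K) := by
        unfold sR
        rw [← div_eq_mul_inv, div_le_div_iff₀ hsq0 (by linarith)]
        linarith
      have e4 : 5 / (4 * K) = 1 / K + 1 / (4 * K) := by
        have : K ≠ 0 := by linarith
        field_simp; norm_num
      rw [e4]
      refine (norm_add_le _ _).trans ?_
      linarith
    · refine q4.trans ?_
      refine mul_le_mul_of_nonneg_right (by linarith) (by positivity)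
  · have h1 := hPL _ hTC
    have h2 := hGB κ R (Real.sqrt R) G S z₁ hκ hκ1 hR hR2 le_rfl (hrC CG hCG1 hR2) hCls.1
      hCls.2.1 fun W hW => (hS W hW).1
    have h3 : ∑ W ∈ S, al2 N β R δ G W * ENNReal.ofReal (R ^ (((m : ℝ) + 2) / 2)) ≤
        ENNReal.ofReal (4 * a ^ 2 * D * R ^ (((m : ℝ) + 2) / 2)) := by
      have h4 : ∀ W ∈ S, al2 N β R δ G W * ENNReal.ofReal (R ^ (((m : ℝ) + 2) / 2)) ≤
          ENNReal.ofReal (4 * a ^ 2 * R ^ (((m : ℝ) + 2) / 2)) := by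
        intro W hW
        obtain ⟨-, h5⟩ := hAM κ R A G W hκ (by linarith) hR hA hCls
        rw [h5, ← ENNReal.ofReal_mul (by positivity)]
        refine ENNReal.ofReal_le_ofReal (mul_le_mul_of_nonneg_right ?_ (by positivity))
        have h6 := (hS W hW).2.2
        have h7 : 0 ≤ al N β R δ G W := Real.sqrt_nonneg _
        calc al N β R δ G W ^ 2 ≤ (2 * a) ^ 2 := pow_le_pow_left₀ h7 h6 2
          _ = 4 * a ^ 2 := by ring
      calc _ ≤ ∑ W ∈ S, ENNReal.ofReal (4 * a ^ 2 * R ^ (((m : ℝ) + 2) / 2)) :=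
            Finset.sum_le_sum h4
        _ = ENNReal.ofReal ((S.card : ℝ) * (4 * a ^ 2 * R ^ (((m : ℝ) + 2) / 2))) := by
            rw [Finset.sum_const, nsmul_eq_mul, ENNReal.ofReal_mul (Nat.cast_nonneg S.card),
              ENNReal.ofReal_natCast]
        _ ≤ _ := by
            refine ENNReal.ofReal_le_ofReal ?_
            calc (S.card : ℝ) * (4 * a ^ 2 * R ^ (((m : ℝ) + 2) / 2))
                ≤ D * (4 * a ^ 2 * R ^ (((m : ℝ) + 2) / 2)) :=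
                  mul_le_mul_of_nonneg_right hD (by positivity)
              _ = _ := by ring
    have hD0 : 0 ≤ D := le_trans (Nat.cast_nonneg _) hD
    have h8 : ENNReal.ofReal (∫ ζ, ‖∑ k ∈ S.image Prod.fst, G' k ζ‖ ^ 2) ≤
        ENNReal.ofReal (CG * R ^ (lo m * δ) * (Real.sqrt R / R) *
          (4 * a ^ 2 * D * R ^ (((m : ℝ) + 2) / 2))) := by
      rw [← h1, ENNReal.ofReal_mul (by positivity)]
      refine le_trans (le_of_eq ?_) (h2.trans (mul_le_mul_right h3 _))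
      exact lintegral_congr fun z => by rw [hTF]
    have h9 := (ENNReal.ofReal_le_ofReal_iff (by positivity)).1 h8
    refine h9.trans (le_of_eq ?_)
    have h10 : Real.sqrt R / R * R ^ (((m : ℝ) + 2) / 2) = R ^ (((m : ℝ) + 1) / 2) := by
      rw [hsq, div_eq_mul_inv, ← Real.rpow_neg_one R, ← Real.rpow_add hR0, ← Real.rpow_add hR0]
      congr 1; ring
    rw [← h10]; ring

theorem pf_C3Q (hFIB : T_FIB) (hPKT : T_PKT) (hGBE : T_GBE) (hTLS : T_TLS) (hCBN : T_CBN)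
    (hPLN : T_PLN) (hAMU : T_AMU) : T_C3Q := by
  intro m L β Ψ Ξ ψ χ K δ b₀ B hm hβ hψ hχ hK hδ hδ1 hb₀ hB N hN
  obtain ⟨CF, hCF0, hF⟩ := hFIB m K δ hm hK hδ
  obtain ⟨CP, hCP1, hPK⟩ := hPKT m β Ψ Ξ ψ χ hβ hψ hχ
  obtain ⟨CG, hCG1, hGB⟩ := hGBE m N β Ψ Ξ ψ χ δ hβ hψ hχ hδ (by linarith) hN
  obtain ⟨CT, hCT0, hTL⟩ := hTLS m L N β Ψ ψ δ (2 * δ) hβ hψ hδ (by linarith) hN
  obtain ⟨CA, hCA0, hAM⟩ := hAMU m L N β δ hβ hδ.le hN
  obtain ⟨hcb1, hcb2, -⟩ := hCBN m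
  obtain ⟨Ccube, hCcube⟩ : ∃ C : ℝ, C = 8 * (CF * ((m : ℝ) + 1) * 3 * (16 * CG) ^ (3 : ℕ)) :=
    ⟨_, rfl⟩
  have hCc0 : 0 ≤ Ccube := by rw [hCcube]; positivity
  refine ⟨1 + 8 * CP + CG + 12 * K + 2 * (CT * b₀⁻¹) + Ccube, ?_, ?_⟩
  · have : 0 ≤ CT * b₀⁻¹ := by positivity
    linarith
  intro κ R r A H G c S a b M QQ l k X hκ hκ1 hR hCR hA hH hbA hc hab hCls hSep hS hcS hb2 hM2 hX
  classical
  have hCTb : 0 ≤ CT * b₀⁻¹ := by positivity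
  have hR0 : 0 < R := by linarith
  have hRδ : 0 < R ^ δ := Real.rpow_pos_of_pos hR0 _
  have hsq : Real.sqrt R = R ^ (1 / 2 : ℝ) := Real.sqrt_eq_rpow R
  have hsq0 : 0 < Real.sqrt R := Real.sqrt_pos.2 hR0
  have hsq1 : 1 ≤ Real.sqrt R := Real.one_le_sqrt.2 hR
  set P : ℝ := (M 0 * b 0 * a 0 ^ 2) * (M 1 * b 1 * a 1 ^ 2) * (M 2 * b 2 * a 2 ^ 2) with hP
  -- one cube
  have key : ∀ q ∈ X.image (cb (Real.sqrt R)),
      ((X.filter (fun z => cb (Real.sqrt R) z = q)).card : ℝ) * H ^ 3 ≤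
        Ccube * R ^ (2 * lo m * δ) * Real.sqrt P * R ^ (3 * (m : ℝ) / 4) := by
    intro q hq
    obtain ⟨z₁, hz₁, hz₁q⟩ := Finset.mem_image.1 hq
    obtain ⟨Xq, hXq⟩ : ∃ Xq, Xq = X.filter (fun z => cb (Real.sqrt R) z = q) := ⟨_, rfl⟩
    rw [← hXq]
    have hXq1 : ∀ z ∈ Xq, z ∈ X ∧ cb (Real.sqrt R) z = q := by
      intro z hz; rw [hXq] at hz; exact Finset.mem_filter.1 hz
    set S₁ : Fin 3 → Finset (Pk m) := fun i => SB QQ R r δ (l i) (k i) (S i) (bl R r q) with hS₁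
    set S' : Fin 3 → Finset (Pk m) := fun i => (S₁ i).filter (fun W => Inc R δ (tb R W) q) with hS'
    have hS'S : ∀ i, ∀ W ∈ S' i, W ∈ S i := fun i W hW =>
      Pool.Agent.H33.G.SB_subset (Finset.mem_filter.1 hW).1
    have hcard : ∀ i, ((S' i).card : ℝ) ≤ 4 * (M i * b i) := by
      intro i
      obtain ⟨ha, hb, hM⟩ := hab i
      refine Pool.Agent.H33.G.card_tubes (R := R) (by linarith) (S i) (S' i)
        (fun T => Inc R δ T q ∧ Sh QQ R r δ (l i) (k i) T (bl R r q)) ?_ (hb2 i) ?_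
      · intro W hW
        obtain ⟨g1, g2⟩ := Finset.mem_filter.1 hW
        exact ⟨(Pool.Agent.H33.G.mem_SB.1 g1).1, g2, (Pool.Agent.H33.G.mem_SB.1 g1).2⟩
      · have := hM2 i z₁ hz₁
        rwa [hz₁q] at this
    -- lower bound
    have hlow : ∀ z ∈ Xq, ∀ i, H / 2 ≤ ‖∑ W ∈ S' i, Fp β ψ R δ (G i) W z‖ := by
      intro z hz i
      obtain ⟨hzX, hzq⟩ := hXq1 z hz
      have h1 := hX i z hzX
      rw [hzq] at h1
      have h2 : ∑ W ∈ S₁ i, Fp β ψ R δ (G i) W z = ∑ W ∈ S' i, Fp β ψ R δ (G i) W z +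
          ∑ W ∈ (S₁ i).filter (fun W => ¬ Inc R δ (tb R W) q), Fp β ψ R δ (G i) W z :=
        (Finset.sum_filter_add_sum_filter_not _ _ _).symm
      have h3 := (hTL κ R A (G i) ((S₁ i).filter (fun W => ¬ Inc R δ (tb R W) q)) z hκ
        (by linarith) hR hA (hCls i) (fun W hW => (hS i W (Pool.Agent.H33.G.SB_subset
          (Finset.mem_filter.1 hW).1)).1)).1 (fun W hW hn => by
            refine (Finset.mem_filter.1 hW).2 ?_
            have := hcb2 R δ W z hR hδ.le hn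
            rwa [hzq] at this)
      have h4 : CT * A * R ^ (-(2 * δ)) ≤ H / 2 := by
        have e1 : A ≤ b₀⁻¹ * (R ^ δ * H) := by
          rw [inv_mul_eq_div, le_div_iff₀ hb₀]
          linarith
        have e2 : R ^ (-(2 * δ)) * R ^ δ = R ^ (-δ) := by
          rw [← Real.rpow_add hR0]; congr 1; ring
        have e3 : CT * b₀⁻¹ * R ^ (-δ) ≤ 1 / 2 := by
          rw [Real.rpow_neg hR0.le, ← div_eq_mul_inv, div_le_iff₀ hRδ]
          linarith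
        calc CT * A * R ^ (-(2 * δ)) ≤ CT * (b₀⁻¹ * (R ^ δ * H)) * R ^ (-(2 * δ)) := by
              refine mul_le_mul_of_nonneg_right (mul_le_mul_of_nonneg_left e1 hCT0.le)
                (Real.rpow_nonneg hR0.le _)
          _ = CT * b₀⁻¹ * (R ^ (-(2 * δ)) * R ^ δ) * H := by ring
          _ = CT * b₀⁻¹ * R ^ (-δ) * H := by rw [e2]
          _ ≤ 1 / 2 * H := mul_le_mul_of_nonneg_right e3 hH.le
          _ = H / 2 := by ring
      have h5 : ‖∑ W ∈ (S₁ i).filter (fun W => ¬ Inc R δ (tb R W) q), Fp β ψ R δ (G i) W z‖ ≤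
          H / 2 := (norm_sum_le _ _).trans (h3.trans h4)
      have h6 : H ≤ ‖∑ W ∈ S' i, Fp β ψ R δ (G i) W z‖ + H / 2 := by
        refine h1.trans ?_
        have h7 : ∑ W ∈ SB QQ R r δ (l i) (k i) (S i) (bl R r q), Fp β ψ R δ (G i) W z =
          ∑ W ∈ S₁ i, Fp β ψ R δ (G i) W z := rfl
        rw [h7, h2]
        exact (norm_add_le _ _).trans (add_le_add le_rfl h5)
      linarith
    choose G' g1 g2 g3 g4 using fun i => one_fam (Ψ := Ψ) (Ξ := Ξ) (K := K) (c := c i)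
      hδ hδ1 hCP1 hCG1 hCA0 hPK hGB hAM
      (fun G hG => (hPLN m G hG).1) (S' i) (Real.sqrt R • zc q) hκ hκ1 hR
      (by linarith) (by linarith) hK (by linarith) hA (hCls i) (hab i).1
      (fun W hW => hS i W (hS'S i W hW)) (hcard i)
    have hm1 : (1 : ℝ) ≤ ((m : ℝ) + 1) * Real.sqrt R := by
      have : (0 : ℝ) ≤ m := Nat.cast_nonneg m
      nlinarith
    have hball : ∀ z ∈ Xq, ‖z - Real.sqrt R • zc q‖ ≤ ((m : ℝ) + 1) * Real.sqrt R := by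
      intro z hz
      have := hcb1 (Real.sqrt R) z hsq0
      rwa [(hXq1 z hz).2] at this
    have hfin := hF (((m : ℝ) + 1) * Real.sqrt R) (2 * (Real.sqrt R)⁻¹) c G'
      (Real.sqrt R • zc q) Xq hm1 (by positivity) hc g1 g2
      (fun z hz z' hz' hne => hSep z (hXq1 z hz).1 z' (hXq1 z' hz').1 hne) hball
    have hχ1 : ∀ z ∈ Xq, 1 ≤ χ ((Real.sqrt R)⁻¹ • (z - Real.sqrt R • zc q)) := by
      intro z hz
      refine hχ.2.2.2.2 _ ?_
      rw [norm_smul, norm_inv, Real.norm_eq_abs, abs_of_pos hsq0, inv_mul_le_iff₀ hsq0]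
      have := hball z hz
      have h0 : (0 : ℝ) ≤ m := Nat.cast_nonneg m
      nlinarith
    have hprod : ∀ z ∈ Xq, (H / 2) ^ 3 ≤ ∏ i, ‖TF (G' i) z‖ := by
      intro z hz
      have h1 : ∀ i : Fin 3, H / 2 ≤ ‖TF (G' i) z‖ := by
        intro i
        rw [g3, norm_mul, Complex.norm_real, Real.norm_eq_abs,
          abs_of_nonneg (by have := hχ1 z hz; linarith)]
        calc H / 2 ≤ ‖∑ W ∈ S' i, Fp β ψ R δ (G i) W z‖ := hlow z hz i
          _ = 1 * ‖∑ W ∈ S' i, Fp β ψ R δ (G i) W z‖ := (one_mul _).symm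
          _ ≤ _ := mul_le_mul_of_nonneg_right (hχ1 z hz) (norm_nonneg _)
      calc (H / 2) ^ 3 = ∏ _i : Fin 3, (H / 2) := by
            rw [Finset.prod_const, Finset.card_univ, Fintype.card_fin]
        _ ≤ _ := Finset.prod_le_prod (fun _ _ => by positivity) fun i _ => h1 i
    have hsum : (Xq.card : ℝ) * (H / 2) ^ 3 ≤ ∑ z ∈ Xq, ∏ i, ‖TF (G' i) z‖ := by
      rw [← nsmul_eq_mul, ← Finset.sum_const]
      exact Finset.sum_le_sum hprod
    -- product of the square roots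
    have hab0 : ∀ i, 0 ≤ M i * b i * a i ^ 2 := by
      intro i
      obtain ⟨ha, hb, hM⟩ := hab i
      have : 0 ≤ b i := by linarith
      positivity
    have hQ : ∀ i, Real.sqrt (∫ ζ, ‖G' i ζ‖ ^ 2) ≤
        Real.sqrt (16 * CG * R ^ (lo m * δ) * R ^ (((m : ℝ) + 1) / 2)) *
          Real.sqrt (M i * b i * a i ^ 2) := by
      intro i
      rw [← Real.sqrt_mul (by positivity)]
      refine Real.sqrt_le_sqrt ((g4 i).trans (le_of_eq ?_))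
      ring
    have hQp : ∏ i, Real.sqrt (∫ ζ, ‖G' i ζ‖ ^ 2) ≤
        Real.sqrt (16 * CG * R ^ (lo m * δ) * R ^ (((m : ℝ) + 1) / 2)) ^ 3 * Real.sqrt P := by
      calc _ ≤ ∏ i, (Real.sqrt (16 * CG * R ^ (lo m * δ) * R ^ (((m : ℝ) + 1) / 2)) *
          Real.sqrt (M i * b i * a i ^ 2)) :=
            Finset.prod_le_prod (fun _ _ => Real.sqrt_nonneg _) fun i _ => hQ i
        _ = _ := by
            rw [Finset.prod_mul_distrib, Finset.prod_const, Finset.card_univ, Fintype.card_fin,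
              Fin.prod_univ_three, hP, Real.sqrt_mul (mul_nonneg (hab0 0) (hab0 1)),
              Real.sqrt_mul (hab0 0)]
    have hY : Real.sqrt (16 * CG * R ^ (lo m * δ) * R ^ (((m : ℝ) + 1) / 2)) ^ 3 ≤
        (16 * CG) ^ 3 * R ^ (3 / 2 * (lo m * δ)) * R ^ (3 * ((m : ℝ) + 1) / 4) := by
      have h16 : 1 ≤ 16 * CG := by linarith
      have e0 : 16 * CG * R ^ (lo m * δ) * R ^ (((m : ℝ) + 1) / 2) =
          (16 * CG) * R ^ (lo m * δ + ((m : ℝ) + 1) / 2) := by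
        rw [Real.rpow_add hR0]; ring
      rw [e0, Real.sqrt_mul (by positivity), mul_pow]
      have e1 : Real.sqrt (16 * CG) ≤ 16 * CG :=
        Real.sqrt_le_iff.2 ⟨by positivity, by nlinarith⟩
      have e2 : Real.sqrt (R ^ (lo m * δ + ((m : ℝ) + 1) / 2)) ^ 3 =
          R ^ (3 / 2 * (lo m * δ)) * R ^ (3 * ((m : ℝ) + 1) / 4) := by
        rw [Real.sqrt_eq_rpow, ← Real.rpow_mul hR0.le, ← Real.rpow_natCast, ← Real.rpow_mul hR0.le,
          ← Real.rpow_add hR0]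
        congr 1; push_cast; ring
      rw [e2, ← mul_assoc]
      refine mul_le_mul_of_nonneg_right (mul_le_mul_of_nonneg_right ?_ (by positivity))
        (by positivity)
      exact pow_le_pow_left₀ (Real.sqrt_nonneg _) e1 3
    have hρ : (2 * (Real.sqrt R)⁻¹) ^ (3 / 2 : ℝ) ≤ 3 * R ^ (-(3 / 4) : ℝ) := by
      rw [Real.mul_rpow (by norm_num) (by positivity)]
      have e1 : ((Real.sqrt R)⁻¹) ^ (3 / 2 : ℝ) = R ^ (-(3 / 4) : ℝ) := by
        rw [hsq, ← Real.rpow_neg hR0.le, ← Real.rpow_mul hR0.le]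
        congr 1; norm_num
      rw [e1]
      refine mul_le_mul_of_nonneg_right ?_ (Real.rpow_nonneg hR0.le _)
      have e2 : ((2 : ℝ) ^ (3 / 2 : ℝ)) ^ 2 = 8 := by
        rw [← Real.rpow_natCast, ← Real.rpow_mul (by norm_num)]; norm_num
      have e3 : (0 : ℝ) ≤ (2 : ℝ) ^ (3 / 2 : ℝ) := Real.rpow_nonneg (by norm_num) _
      nlinarith
    have hrad : (((m : ℝ) + 1) * Real.sqrt R) ^ δ ≤ ((m : ℝ) + 1) * R ^ δ := by
      rw [Real.mul_rpow (by positivity) hsq0.le]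
      refine mul_le_mul ?_ ?_ (by positivity) (by positivity)
      · calc ((m : ℝ) + 1) ^ δ ≤ ((m : ℝ) + 1) ^ (1 : ℝ) := by
              refine Real.rpow_le_rpow_of_exponent_le ?_ (by linarith)
              have : (0 : ℝ) ≤ m := Nat.cast_nonneg m
              linarith
          _ = _ := Real.rpow_one _
      · refine Real.rpow_le_rpow hsq0.le ?_ hδ.le
        rw [Real.sqrt_le_iff]
        exact ⟨hR0.le, by nlinarith⟩
    have hexp : R ^ δ * R ^ (-(3 / 4) : ℝ) * (R ^ (3 / 2 * (lo m * δ)) *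
        R ^ (3 * ((m : ℝ) + 1) / 4)) ≤ R ^ (2 * lo m * δ) * R ^ (3 * (m : ℝ) / 4) := by
      rw [← Real.rpow_add hR0, ← Real.rpow_add hR0, ← Real.rpow_add hR0, ← Real.rpow_add hR0]
      refine Real.rpow_le_rpow_of_exponent_le hR ?_
      have h0 : (0 : ℝ) ≤ m := Nat.cast_nonneg m
      have h1 : 2 * δ ≤ lo m * δ := by
        refine mul_le_mul_of_nonneg_right ?_ hδ.le
        unfold lo; linarith
      nlinarith
    have hPs : 0 ≤ Real.sqrt P := Real.sqrt_nonneg _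
    have h1 : (Xq.card : ℝ) * (H / 2) ^ 3 ≤ CF * (((m : ℝ) + 1) * R ^ δ) *
        (3 * R ^ (-(3 / 4) : ℝ)) * ((16 * CG) ^ 3 * R ^ (3 / 2 * (lo m * δ)) *
          R ^ (3 * ((m : ℝ) + 1) / 4) * Real.sqrt P) := by
      refine hsum.trans (hfin.trans ?_)
      refine mul_le_mul (mul_le_mul (mul_le_mul_of_nonneg_left hrad hCF0) hρ (by positivity)
        (by positivity)) (hQp.trans (mul_le_mul_of_nonneg_right hY hPs))
        (Finset.prod_nonneg fun _ _ => Real.sqrt_nonneg _) (by positivity)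
    have h2 : (Xq.card : ℝ) * H ^ 3 = 8 * ((Xq.card : ℝ) * (H / 2) ^ 3) := by ring
    rw [h2]
    calc 8 * ((Xq.card : ℝ) * (H / 2) ^ 3) ≤ 8 * (CF * (((m : ℝ) + 1) * R ^ δ) *
        (3 * R ^ (-(3 / 4) : ℝ)) * ((16 * CG) ^ 3 * R ^ (3 / 2 * (lo m * δ)) *
          R ^ (3 * ((m : ℝ) + 1) / 4) * Real.sqrt P)) :=
          mul_le_mul_of_nonneg_left h1 (by norm_num)
      _ = Ccube * (R ^ δ * R ^ (-(3 / 4) : ℝ) * (R ^ (3 / 2 * (lo m * δ)) *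
        R ^ (3 * ((m : ℝ) + 1) / 4))) * Real.sqrt P := by rw [hCcube]; ring
      _ ≤ Ccube * (R ^ (2 * lo m * δ) * R ^ (3 * (m : ℝ) / 4)) * Real.sqrt P :=
          mul_le_mul_of_nonneg_right (mul_le_mul_of_nonneg_left hexp hCc0) hPs
      _ = _ := by ring
  -- the sum over the cubes
  have h1 : (X.card : ℝ) = ∑ q ∈ X.image (cb (Real.sqrt R)),
      ((X.filter (fun z => cb (Real.sqrt R) z = q)).card : ℝ) := by
    exact_mod_cast Finset.card_eq_sum_card_image (cb (Real.sqrt R)) X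
  rw [h1, Finset.sum_mul]
  calc _ ≤ ∑ q ∈ X.image (cb (Real.sqrt R)),
        Ccube * R ^ (2 * lo m * δ) * Real.sqrt P * R ^ (3 * (m : ℝ) / 4) :=
        Finset.sum_le_sum key
    _ = Ccube * (R ^ (2 * lo m * δ) * (X.image (cb (Real.sqrt R))).card *
        Real.sqrt P * R ^ (3 * (m : ℝ) / 4)) := by
        rw [Finset.sum_const, nsmul_eq_mul]
        ring
    _ ≤ (1 + 8 * CP + CG + 12 * K + 2 * (CT * b₀⁻¹) + Ccube) *
        (R ^ (2 * lo m * δ) * (X.image (cb (Real.sqrt R))).card *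
        Real.sqrt P * R ^ (3 * (m : ℝ) / 4)) := by
        refine mul_le_mul_of_nonneg_right (by linarith) (by positivity)
    _ = _ := by ring

end Pool.Agent.H96.T3.C3Q
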