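import Pool.Agent.H94.T3.Targets

/-!
(T3): three separated caps of the cone are transversal.
-/

set_option autoImplicit false

namespace Pool.Agent.H96.T3.TRN

open MeasureTheory Set
open Pool.Agent.H94.T3
open scoped ENNReal NNReal RealInnerProductSpace

abbrev EE (d : ℕ) := EuclideanSpace ℝ (Fin d)

private lemma nsq {m : ℕ} (ξ : EE (m + 1)) :
    ‖ξ‖ ^ 2 = ‖Pool.Agent.H83.LS.pr ξ‖ ^ 2 + (ξ (Fin.last m)) ^ 2 := by
  rw [EuclideanSpace.norm_sq_eq, EuclideanSpace.norm_sq_eq, Fin.sum_univ_castSucc]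
  simp [Pool.Agent.H83.LS.pr]

private lemma cont_pr {m : ℕ} : Continuous (fun ξ : EE (m + 1) => Pool.Agent.H83.LS.pr ξ) := by
  unfold Pool.Agent.H83.LS.pr
  fun_prop

private lemma pr_sum {m : ℕ} (κ : Fin 3 → ℝ) (ξ : Fin 3 → EE (m + 1)) :
    Pool.Agent.H83.LS.pr (∑ j, κ j • ξ j) = ∑ j, κ j • Pool.Agent.H83.LS.pr (ξ j) := by
  ext i
  simp [Pool.Agent.H83.LS.pr]

private lemma key {m : ℕ} (μ : Fin 3 → ℝ) (η : Fin 3 → EE m) (h0 : ∑ j, μ j = 0)
    (h1 : ∑ j, μ j • η j = 0) (h2 : ∑ j, μ j * ‖η j‖ ^ 2 = 0) (hd : ∀ i j, i ≠ j → η i ≠ η j) :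
    ∀ j, μ j = 0 := by
  rw [Fin.sum_univ_three] at h0 h1 h2
  set u := η 1 - η 0 with hu
  set v := η 2 - η 0 with hv
  have e1 : μ 1 • u + μ 2 • v = 0 := by
    have : μ 0 = - μ 1 - μ 2 := by linarith
    rw [this] at h1
    rw [hu, hv, smul_sub, smul_sub, ← h1]
    module
  have hu2 : ‖u‖ ^ 2 = ‖η 1‖ ^ 2 - 2 * ⟪η 1, η 0⟫ + ‖η 0‖ ^ 2 := norm_sub_sq_real _ _
  have hv2 : ‖v‖ ^ 2 = ‖η 2‖ ^ 2 - 2 * ⟪η 2, η 0⟫ + ‖η 0‖ ^ 2 := norm_sub_sq_real _ _
  have h3 : μ 0 * ⟪η 0, η 0⟫ + μ 1 * ⟪η 1, η 0⟫ + μ 2 * ⟪η 2, η 0⟫ = 0 := by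
    have := congrArg (fun w => ⟪w, η 0⟫) h1
    simpa [inner_add_left, inner_smul_left] using this
  rw [real_inner_self_eq_norm_sq] at h3
  have e2 : μ 1 * ‖u‖ ^ 2 + μ 2 * ‖v‖ ^ 2 = 0 := by
    rw [hu2, hv2]
    have : μ 0 = - μ 1 - μ 2 := by linarith
    rw [this] at h2 h3
    linarith
  have e3 : μ 1 * ‖u‖ ^ 2 + μ 2 * ⟪v, u⟫ = 0 := by
    have := congrArg (fun w => ⟪w, u⟫) e1
    simpa [inner_add_left, inner_smul_left, real_inner_self_eq_norm_sq] using this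
  have e4 : μ 1 * ⟪u, v⟫ + μ 2 * ‖v‖ ^ 2 = 0 := by
    have := congrArg (fun w => ⟪w, v⟫) e1
    simpa [inner_add_left, inner_smul_left, real_inner_self_eq_norm_sq] using this
  rw [real_inner_comm] at e3
  have huz : u ≠ 0 := sub_ne_zero.2 (hd 1 0 (by decide))
  have hvz : v ≠ 0 := sub_ne_zero.2 (hd 2 0 (by decide))
  have huv : u - v ≠ 0 := by
    rw [hu, hv, sub_sub_sub_cancel_right]
    exact sub_ne_zero.2 (hd 1 2 (by decide))
  have hμ2 : μ 2 = 0 := by
    by_contra hne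
    have hμ1 : μ 1 ≠ 0 := by
      intro h
      rw [h, zero_smul, zero_add] at e1
      rcases smul_eq_zero.1 e1 with h' | h'
      · exact hne h'
      · exact hvz h'
    have f1 : ‖v‖ ^ 2 = ⟪u, v⟫ := by
      have : μ 2 * (‖v‖ ^ 2 - ⟪u, v⟫) = 0 := by linarith
      rcases mul_eq_zero.1 this with h' | h'
      · exact absurd h' hne
      · linarith
    have f2 : ‖u‖ ^ 2 = ⟪u, v⟫ := by
      have : μ 1 * (‖u‖ ^ 2 - ⟪u, v⟫) = 0 := by linarith
      rcases mul_eq_zero.1 this with h' | h'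
      · exact absurd h' hμ1
      · linarith
    have f3 : ‖u - v‖ ^ 2 = 0 := by rw [norm_sub_sq_real]; linarith
    exact huv (norm_eq_zero.1 (by simpa using f3))
  have hμ1 : μ 1 = 0 := by
    rw [hμ2, zero_smul, add_zero] at e1
    rcases smul_eq_zero.1 e1 with h' | h'
    · exact h'
    · exact absurd h' huz
  intro j
  fin_cases j
  · simp only [Fin.zero_eta]; linarith
  · exact hμ1
  · exact hμ2

theorem pf_TRN : T_TRN := by
  intro m ρ c hρ hc
  refine ⟨fun j => ?_, fun j h0 => ?_, ?_⟩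
  · -- compactness
    have hG : Gam (c j) ρ = {ξ : EE (m + 1) | 1 / 4 ≤ ‖ξ‖ + ξ (Fin.last m)} ∩
        ({ξ : EE (m + 1) | ‖ξ‖ + ξ (Fin.last m) ≤ 8} ∩
        {ξ : EE (m + 1) | ‖Pool.Agent.H83.LS.pr ξ - (‖ξ‖ + ξ (Fin.last m)) • c j‖ ≤
          ρ * (‖ξ‖ + ξ (Fin.last m))}) := by
      ext ξ
      simp only [Gam, mem_setOf_eq, mem_inter_iff]
      refine and_congr_right fun h1 => and_congr_right fun _ => ?_
      set a := ‖ξ‖ + ξ (Fin.last m) with ha
      have hap : 0 < a := lt_of_lt_of_le (by norm_num) h1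
      have : Pool.Agent.H83.LS.pr ξ - a • c j = a • (a⁻¹ • Pool.Agent.H83.LS.pr ξ - c j) := by
        rw [smul_sub, smul_smul, mul_inv_cancel₀ hap.ne', one_smul]
      rw [this, norm_smul, Real.norm_eq_abs, abs_of_pos hap, mul_comm ρ]
      exact (mul_le_mul_iff_right₀ hap).symm
    have hca : Continuous (fun ξ : EE (m + 1) => ‖ξ‖ + ξ (Fin.last m)) := by fun_prop
    have hcl : IsClosed (Gam (c j) ρ) := by
      rw [hG]
      refine (isClosed_le continuous_const hca).inter ((isClosed_le hca continuous_const).inter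
        (isClosed_le ?_ (continuous_const.mul hca)))
      exact (cont_pr.sub (hca.smul continuous_const)).norm
    refine (isCompact_closedBall (0 : EE (m + 1)) (4 + 2 * (8 * (‖c j‖ + ρ)) ^ 2)).of_isClosed_subset
      hcl ?_
    intro ξ hξ
    rw [hG] at hξ
    obtain ⟨h1, h2, h3⟩ := hξ
    simp only [mem_setOf_eq] at h1 h2 h3
    set a := ‖ξ‖ + ξ (Fin.last m) with ha
    have hap : 0 < a := lt_of_lt_of_le (by norm_num) h1
    have hB : ‖Pool.Agent.H83.LS.pr ξ‖ ≤ 8 * (‖c j‖ + ρ) := by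
      have h4 : ‖Pool.Agent.H83.LS.pr ξ‖ ≤ ‖Pool.Agent.H83.LS.pr ξ - a • c j‖ + ‖a • c j‖ := by
        simpa using norm_add_le (Pool.Agent.H83.LS.pr ξ - a • c j) (a • c j)
      rw [norm_smul, Real.norm_eq_abs, abs_of_pos hap] at h4
      have h5 : a * ‖c j‖ ≤ 8 * ‖c j‖ := mul_le_mul_of_nonneg_right h2 (norm_nonneg _)
      have h6 : ρ * a ≤ ρ * 8 := mul_le_mul_of_nonneg_left h2 hρ
      linarith
    have hn := nsq ξ
    have h7 : (‖ξ‖ - ξ (Fin.last m)) * a = ‖Pool.Agent.H83.LS.pr ξ‖ ^ 2 := by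
      rw [ha]; linarith
    have h8 : ‖Pool.Agent.H83.LS.pr ξ‖ ^ 2 ≤ (8 * (‖c j‖ + ρ)) ^ 2 :=
      pow_le_pow_left₀ (norm_nonneg _) hB 2
    have h9 : ‖ξ‖ - ξ (Fin.last m) ≤ 4 * (8 * (‖c j‖ + ρ)) ^ 2 := by
      by_contra hlt
      push Not at hlt
      have h10 : 0 ≤ ‖ξ‖ - ξ (Fin.last m) := le_trans (by positivity) hlt.le
      have h11 : (‖ξ‖ - ξ (Fin.last m)) * (1 / 4) ≤ (‖ξ‖ - ξ (Fin.last m)) * a :=
        mul_le_mul_of_nonneg_left h1 h10
      nlinarith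
    rw [mem_closedBall_zero_iff]
    linarith
  · have := h0.1
    simp at this
    linarith
  · intro ξ hξ
    rw [Fintype.linearIndependent_iff]
    intro lam hlam
    have hf : ∑ j, lam j • (‖ξ j‖⁻¹ • ξ j) = 0 := by
      have := congrArg Prod.fst hlam
      simpa [Prod.fst_sum] using this
    have hs : ∑ j, lam j = 0 := by
      have := congrArg Prod.snd hlam
      simpa [Prod.snd_sum] using this
    set a : Fin 3 → ℝ := fun j => ‖ξ j‖ + ξ j (Fin.last m) with ha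
    have hap : ∀ j, 0 < a j := fun j => lt_of_lt_of_le (by norm_num) (hξ j).1
    have hnp : ∀ j, 0 < ‖ξ j‖ := by
      intro j
      by_contra h
      have h1 : ‖ξ j‖ = 0 := le_antisymm (not_lt.1 h) (norm_nonneg _)
      have h2 := hap j
      rw [norm_eq_zero] at h1
      simp [ha, h1] at h2
    set κ : Fin 3 → ℝ := fun j => lam j * ‖ξ j‖⁻¹ with hκ
    have hf' : ∑ j, κ j • ξ j = 0 := by
      rw [← hf]; exact Finset.sum_congr rfl fun j _ => by rw [hκ, smul_smul]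
    have hs' : ∑ j, κ j * ‖ξ j‖ = 0 := by
      rw [← hs]
      exact Finset.sum_congr rfl fun j _ => by rw [hκ]; simp [mul_assoc, (hnp j).ne']
    have hpr : ∑ j, κ j • Pool.Agent.H83.LS.pr (ξ j) = 0 := by
      rw [← pr_sum, hf']; ext i; simp [Pool.Agent.H83.LS.pr]
    have hla : ∑ j, κ j * ξ j (Fin.last m) = 0 := by
      have := congrArg (fun w : EE (m + 1) => w (Fin.last m)) hf'
      simpa using this
    set η : Fin 3 → EE m := fun j => (a j)⁻¹ • Pool.Agent.H83.LS.pr (ξ j) with hη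
    have hk := key (fun j => κ j * a j) η ?_ ?_ ?_ ?_
    · intro j
      have h1 := hk j
      rcases mul_eq_zero.1 h1 with h2 | h2
      · rcases mul_eq_zero.1 h2 with h3 | h3
        · exact h3
        · exact absurd h3 (inv_ne_zero (hnp j).ne')
      · exact absurd h2 (hap j).ne'
    · have : ∑ j, κ j * a j = ∑ j, κ j * ‖ξ j‖ + ∑ j, κ j * ξ j (Fin.last m) := by
        rw [← Finset.sum_add_distrib]
        exact Finset.sum_congr rfl fun j _ => by rw [ha]; ring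
      rw [this, hs', hla, add_zero]
    · rw [← hpr]
      refine Finset.sum_congr rfl fun j _ => ?_
      rw [hη, smul_smul, mul_assoc, mul_inv_cancel₀ (hap j).ne', mul_one]
    · have : ∑ j, κ j * a j * ‖η j‖ ^ 2 = ∑ j, κ j * ‖ξ j‖ - ∑ j, κ j * ξ j (Fin.last m) := by
        rw [← Finset.sum_sub_distrib]
        refine Finset.sum_congr rfl fun j _ => ?_
        have hn := nsq (ξ j)
        have h7 : (‖ξ j‖ - ξ j (Fin.last m)) * a j = ‖Pool.Agent.H83.LS.pr (ξ j)‖ ^ 2 := by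
          rw [ha]; linarith
        have h8 : ‖η j‖ ^ 2 = ((a j)⁻¹) ^ 2 * ‖Pool.Agent.H83.LS.pr (ξ j)‖ ^ 2 := by
          rw [hη, norm_smul, mul_pow, Real.norm_eq_abs, sq_abs]
        rw [h8, ← h7]
        have := (hap j).ne'
        field_simp
      rw [this, hs', hla, sub_zero]
    · intro i j hij he
      have h1 := (hξ i).2.2
      have h2 := (hξ j).2.2
      have h3 : c i - c j = (c i - η i) + (η j - c j) := by rw [he]; abel
      have h4 : ‖c i - c j‖ ≤ ρ + ρ := by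
        rw [h3]
        refine (norm_add_le _ _).trans (add_le_add ?_ ?_)
        · rw [norm_sub_rev]; exact h1
        · exact h2
      have := hc i j hij
      linarith

end Pool.Agent.H96.T3.TRN
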