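import Pool.Agent.H94.T3.Targets

/-!
(T3): trilinear restriction in light cone coordinates, uniformly in the centres.
-/

set_option autoImplicit false

namespace Pool.Agent.H96.T3.TRV

open MeasureTheory Set
open Pool.Agent.H94.T3
open Pool.Agent.H83.G (E Z)
open scoped ENNReal NNReal RealInnerProductSpace

abbrev EE (d : ℕ) := EuclideanSpace ℝ (Fin d)

private lemma nsq {m : ℕ} (y : E m) (s : ℝ) :
    ‖Pool.Agent.H83.LS.jo y s‖ ^ 2 = ‖y‖ ^ 2 + s ^ 2 := by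
  rw [EuclideanSpace.norm_sq_eq, EuclideanSpace.norm_sq_eq, Fin.sum_univ_castSucc]
  simp [Pool.Agent.H83.LS.jo]

private lemma jo_sub {m : ℕ} (y y' : E m) (s s' : ℝ) :
    Pool.Agent.H83.LS.jo y s - Pool.Agent.H83.LS.jo y' s' =
      Pool.Agent.H83.LS.jo (y - y') (s - s') := by
  ext i
  refine Fin.lastCases ?_ (fun i => ?_) i <;> simp [Pool.Agent.H83.LS.jo]

private lemma le_jo {m : ℕ} (y : E m) (s : ℝ) :
    ‖y‖ ≤ ‖Pool.Agent.H83.LS.jo y s‖ ∧ |s| ≤ ‖Pool.Agent.H83.LS.jo y s‖ ∧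
      ‖Pool.Agent.H83.LS.jo y s‖ ≤ ‖y‖ + |s| := by
  have h := nsq y s
  refine ⟨?_, ?_, ?_⟩
  · exact abs_le_of_sq_le_sq' (by nlinarith [sq_nonneg s]) (norm_nonneg _) |>.2
  · refine abs_le_of_sq_le_sq (by nlinarith [sq_nonneg ‖y‖]) (norm_nonneg _)
  · have h1 := mul_nonneg (norm_nonneg y) (abs_nonneg s)
    have h2 := sq_abs s
    exact (abs_le_of_sq_le_sq' (by nlinarith) (by positivity)).2

private lemma znorm {m : ℕ} (z : Z m) : ‖z‖ = max |z.1| (max ‖z.2.1‖ |z.2.2|) := by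
  rw [Prod.norm_def, Prod.norm_def]; rfl

private lemma dist_xt {m : ℕ} (z z' : Z m) :
    dist ((Pool.Agent.H81.GT.xz z, Pool.Agent.H81.GT.tz z) : EE (m + 1) × ℝ)
      (Pool.Agent.H81.GT.xz z', Pool.Agent.H81.GT.tz z') =
    max ‖Pool.Agent.H83.LS.jo (z - z').2.1 ((z - z').1 - (z - z').2.2)‖
      |(z - z').1 + (z - z').2.2| := by
  rw [Prod.dist_eq, dist_eq_norm, Real.dist_eq]
  congr 1
  · unfold Pool.Agent.H81.GT.xz
    rw [jo_sub]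
    congr 2
    simp only [Prod.fst_sub, Prod.snd_sub]; ring
  · unfold Pool.Agent.H81.GT.tz
    congr 1
    simp only [Prod.fst_sub, Prod.snd_sub]; ring

private lemma dist_ge {m : ℕ} (z z' : Z m) :
    ‖z - z'‖ ≤ dist ((Pool.Agent.H81.GT.xz z, Pool.Agent.H81.GT.tz z) : EE (m + 1) × ℝ)
      (Pool.Agent.H81.GT.xz z', Pool.Agent.H81.GT.tz z') := by
  rw [dist_xt, znorm]
  set w := z - z'
  obtain ⟨h1, h2, -⟩ := le_jo w.2.1 (w.1 - w.2.2)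
  set A := ‖Pool.Agent.H83.LS.jo w.2.1 (w.1 - w.2.2)‖
  set B := |w.1 + w.2.2|
  have hA : A ≤ max A B := le_max_left _ _
  have hB : B ≤ max A B := le_max_right _ _
  have h3 : |w.1| ≤ max A B := by
    have e1 : w.1 = ((w.1 - w.2.2) + (w.1 + w.2.2)) / 2 := by ring
    have e2 := abs_add_le (w.1 - w.2.2) (w.1 + w.2.2)
    rw [e1, abs_div, abs_of_pos (by norm_num : (0 : ℝ) < 2)]
    linarith
  have h4 : |w.2.2| ≤ max A B := by
    have e1 : w.2.2 = ((w.1 + w.2.2) - (w.1 - w.2.2)) / 2 := by ring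
    have e2 := abs_sub (w.1 + w.2.2) (w.1 - w.2.2)
    rw [e1, abs_div, abs_of_pos (by norm_num : (0 : ℝ) < 2)]
    linarith
  exact max_le h3 (max_le (h1.trans hA) h4)

private lemma dist_le {m : ℕ} (z z' : Z m) :
    dist ((Pool.Agent.H81.GT.xz z, Pool.Agent.H81.GT.tz z) : EE (m + 1) × ℝ)
      (Pool.Agent.H81.GT.xz z', Pool.Agent.H81.GT.tz z') ≤ 3 * ‖z - z'‖ := by
  rw [dist_xt]
  set w := z - z'
  obtain ⟨-, -, h3⟩ := le_jo w.2.1 (w.1 - w.2.2)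
  have h := znorm w
  have a1 : |w.1| ≤ ‖w‖ := by rw [h]; exact le_max_left _ _
  have a2 : ‖w.2.1‖ ≤ ‖w‖ := by rw [h]; exact (le_max_left _ _).trans (le_max_right _ _)
  have a3 : |w.2.2| ≤ ‖w‖ := by rw [h]; exact (le_max_right _ _).trans (le_max_right _ _)
  have a4 := abs_sub w.1 w.2.2
  have a5 := abs_add_le w.1 w.2.2
  have a6 := norm_nonneg w
  refine max_le ?_ ?_ <;> linarith

theorem pf_TRV (hMLS : T_MLS) (hCHV : T_CHV) (hTRN : T_TRN) : T_TRV := by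
  classical
  intro m K ε hm hK hε
  have hK0 : 0 < K := by linarith
  have hr : 0 < 1 / (4 * K) := by positivity
  obtain ⟨P, -, hPf, hPc⟩ := (isCompact_closedBall (0 : E m) (4 * m + 4)).finite_cover_balls hr
  have hCp : ∀ p : Fin 3 → E m, ∃ C : ℝ, 0 ≤ C ∧ ((∀ i j, i ≠ j → 7 / (2 * K) ≤ ‖p i - p j‖) →
      ∀ (R : ℝ) (b : Fin 3 → Pool.Agent.H82.KL.EE (m + 1) → ℂ)
      (z₀ : Pool.Agent.H82.KL.EE (m + 1) × ℝ)
      (Y : Finset (Pool.Agent.H82.KL.EE (m + 1) × ℝ)), 1 ≤ R →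
      (∀ j, Continuous (b j)) → (∀ j ξ, b j ξ ≠ 0 → ξ ∈ Gam (p j) (3 / (2 * K))) →
      Pool.Agent.H82.KL.Sep Y → (∀ z ∈ Y, dist z z₀ ≤ R) →
      ∑ z ∈ Y, ∏ j, ‖Pool.Agent.H82.KL.U (b j) z‖ ≤
        C * R ^ ε * ∏ j, Real.sqrt (∫ ξ, ‖b j ξ‖ ^ 2)) := by
    intro p
    by_cases hp : ∀ i j, i ≠ j → 7 / (2 * K) ≤ ‖p i - p j‖
    · obtain ⟨t1, t2, t3⟩ := hTRN m (3 / (2 * K)) p (by positivity) (fun i j hij => by
        refine lt_of_lt_of_le ?_ (hp i j hij)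
        rw [← mul_div_assoc, div_lt_div_iff_of_pos_right (by positivity)]
        norm_num)
      obtain ⟨C, hC, h⟩ := hMLS (m + 1) (fun j => Gam (p j) (3 / (2 * K))) ε hε t1 t2 t3
      exact ⟨C, hC, fun _ => h⟩
    · exact ⟨0, le_rfl, fun h => absurd h hp⟩
  choose Cf hCf0 hCf using hCp
  set PP : Finset (Fin 3 → E m) := Fintype.piFinset (fun _ => hPf.toFinset) with hPP
  have hS0 : 0 ≤ ∑ p ∈ PP, Cf p := Finset.sum_nonneg fun p _ => hCf0 p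
  refine ⟨3 ^ ε * 3 * ∑ p ∈ PP, Cf p, by positivity, ?_⟩
  intro R c g z₀ Y hR hc hg hgs hY hYR
  have hR0 : 0 < R := by linarith
  -- centres
  have hpex : ∀ i, ∃ p ∈ P, ‖c i - p‖ < 1 / (4 * K) := by
    intro i
    have h1 := hPc (mem_closedBall_zero_iff.2 (hc.1 i))
    simp only [mem_iUnion, Metric.mem_ball, exists_prop, dist_eq_norm] at h1
    exact h1
  choose p hpP hpc using hpex
  have hpPP : p ∈ PP := by
    rw [hPP, Fintype.mem_piFinset]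
    intro i; rw [Set.Finite.mem_toFinset]; exact hpP i
  have hpsep : ∀ i j, i ≠ j → 7 / (2 * K) ≤ ‖p i - p j‖ := by
    intro i j hij
    have h1 := hc.2 i j hij
    have h2 : c i - c j = (c i - p i) + (p i - p j) - (c j - p j) := by abel
    have h3 : ‖c i - c j‖ ≤ ‖c i - p i‖ + ‖p i - p j‖ + ‖c j - p j‖ := by
      rw [h2]
      exact (norm_sub_le _ _).trans (add_le_add (norm_add_le _ _) le_rfl)
    have h4 := hpc i
    have h5 := hpc j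
    have h6 : 7 / (2 * K) = 4 / K - 1 / (4 * K) - 1 / (4 * K) := by field_simp; ring
    rw [h6]; linarith
  -- change of variables
  have hD : ∀ i ζ, g i ζ ≠ 0 → 1 / 4 ≤ ζ.1 ∧ ζ.1 ≤ 8 ∧ ‖ζ.2‖ ≤ 8 * (4 * m + 4 + 5 / 4) := by
    intro i ζ hζ
    obtain ⟨h1, h2, h3⟩ := hgs i ζ hζ
    have hζp : 0 < ζ.1 := lt_of_lt_of_le (by norm_num) h1
    refine ⟨h1, h2, ?_⟩
    have h4 : ‖ζ.1⁻¹ • ζ.2‖ ≤ 5 / (4 * K) + (4 * m + 4) := by
      have := norm_add_le (ζ.1⁻¹ • ζ.2 - c i) (c i)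
      rw [sub_add_cancel] at this
      exact this.trans (add_le_add h3 (hc.1 i))
    have h5 : 5 / (4 * K) ≤ 5 / 4 := by
      apply div_le_div_of_nonneg_left (by norm_num) (by norm_num)
      linarith
    have h6 : ‖ζ.2‖ = ζ.1 * ‖ζ.1⁻¹ • ζ.2‖ := by
      rw [norm_smul, norm_inv, Real.norm_eq_abs, abs_of_pos hζp, ← mul_assoc,
        mul_inv_cancel₀ hζp.ne', one_mul]
    rw [h6]
    exact mul_le_mul h2 (by linarith) (norm_nonneg _) (by norm_num)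
  choose b hb1 hb2 hb3 hb4 using fun i => hCHV m (8 * (4 * m + 4 + 5 / 4)) (g i) (hg i) (hD i)
  -- the image of Y
  set F : Z m → EE (m + 1) × ℝ := fun z => (Pool.Agent.H81.GT.xz z, Pool.Agent.H81.GT.tz z)
    with hF
  have hinj : Set.InjOn F (Y : Set (Z m)) := by
    intro z hz z' hz' he
    by_contra hne
    have h1 := hY z hz z' hz' hne
    have h2 := dist_ge z z'
    have h3 : dist (F z) (F z') = 0 := by rw [he, dist_self]
    simp only [hF] at h3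
    linarith
  have hmain := hCf p hpsep (3 * R) b (F z₀) (Y.image F) (by linarith) hb1 (by
      intro j ξ hξ
      obtain ⟨h1, h2, h3⟩ := hgs j _ (hb2 j ξ hξ)
      refine ⟨h1, h2, ?_⟩
      simp only at h3
      have h4 : (‖ξ‖ + ξ (Fin.last m))⁻¹ • Pool.Agent.H83.LS.pr ξ - p j =
          ((‖ξ‖ + ξ (Fin.last m))⁻¹ • Pool.Agent.H83.LS.pr ξ - c j) + (c j - p j) := by abel
      rw [h4]
      refine (norm_add_le _ _).trans ?_
      have h5 := (hpc j).le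
      have h6 : 3 / (2 * K) = 5 / (4 * K) + 1 / (4 * K) := by field_simp; ring
      rw [h6]; exact add_le_add h3 h5) (by
      intro w hw w' hw' hne
      obtain ⟨z, hz, rfl⟩ := Finset.mem_image.1 hw
      obtain ⟨z', hz', rfl⟩ := Finset.mem_image.1 hw'
      have hzz : z ≠ z' := fun h => hne (by rw [h])
      exact (hY z hz z' hz' hzz).trans (dist_ge z z')) (by
      intro w hw
      obtain ⟨z, hz, rfl⟩ := Finset.mem_image.1 hw
      refine (dist_le z z₀).trans ?_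
      have := hYR z hz
      linarith)
  rw [Finset.sum_image hinj] at hmain
  have e1 : ∑ z ∈ Y, ∏ i, ‖V (g i) z‖ =
      ∑ z ∈ Y, ∏ j, ‖Pool.Agent.H82.KL.U (b j) (F z)‖ :=
    Finset.sum_congr rfl fun z _ => Finset.prod_congr rfl fun j _ => by rw [hF, hb3]
  rw [e1]
  refine hmain.trans ?_
  have e2 : (3 * R) ^ ε = 3 ^ ε * R ^ ε := Real.mul_rpow (by norm_num) hR0.le
  have hI0 : ∀ i, 0 ≤ ∫ ζ, ‖g i ζ‖ ^ 2 := fun i => integral_nonneg fun ζ => by positivity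
  have e3 : ∏ j, Real.sqrt (∫ ξ, ‖b j ξ‖ ^ 2) ≤ 3 * ∏ i, Real.sqrt (∫ ζ, ‖g i ζ‖ ^ 2) := by
    have h1 : ∀ j, Real.sqrt (∫ ξ, ‖b j ξ‖ ^ 2) ≤ Real.sqrt 2 * Real.sqrt (∫ ζ, ‖g j ζ‖ ^ 2) := by
      intro j
      rw [← Real.sqrt_mul (by norm_num)]
      exact Real.sqrt_le_sqrt (hb4 j)
    calc ∏ j, Real.sqrt (∫ ξ, ‖b j ξ‖ ^ 2)
        ≤ ∏ j, (Real.sqrt 2 * Real.sqrt (∫ ζ, ‖g j ζ‖ ^ 2)) :=
          Finset.prod_le_prod (fun j _ => Real.sqrt_nonneg _) fun j _ => h1 j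
      _ = Real.sqrt 2 ^ 3 * ∏ i, Real.sqrt (∫ ζ, ‖g i ζ‖ ^ 2) := by
          rw [Finset.prod_mul_distrib]; simp
      _ ≤ 3 * ∏ i, Real.sqrt (∫ ζ, ‖g i ζ‖ ^ 2) := by
          refine mul_le_mul_of_nonneg_right ?_ (Finset.prod_nonneg fun i _ => Real.sqrt_nonneg _)
          have h2 : Real.sqrt 2 ^ 2 = 2 := Real.sq_sqrt (by norm_num)
          have h3 : Real.sqrt 2 ≤ 3 / 2 := Real.sqrt_le_iff.2 ⟨by norm_num, by norm_num⟩
          have h4 := Real.sqrt_nonneg 2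
          nlinarith
  have e4 : Cf p ≤ ∑ p ∈ PP, Cf p := Finset.single_le_sum (fun q _ => hCf0 q) hpPP
  have e5 : 0 ≤ ∏ i, Real.sqrt (∫ ζ, ‖g i ζ‖ ^ 2) :=
    Finset.prod_nonneg fun i _ => Real.sqrt_nonneg _
  rw [e2]
  calc Cf p * (3 ^ ε * R ^ ε) * ∏ j, Real.sqrt (∫ ξ, ‖b j ξ‖ ^ 2)
      ≤ (∑ p ∈ PP, Cf p) * (3 ^ ε * R ^ ε) * (3 * ∏ i, Real.sqrt (∫ ζ, ‖g i ζ‖ ^ 2)) := by
        refine mul_le_mul (mul_le_mul_of_nonneg_right e4 (by positivity)) e3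
          (Finset.prod_nonneg fun i _ => Real.sqrt_nonneg _) (by positivity)
    _ = 3 ^ ε * 3 * (∑ p ∈ PP, Cf p) * R ^ ε * ∏ i, Real.sqrt (∫ ζ, ‖g i ζ‖ ^ 2) := by ring

end Pool.Agent.H96.T3.TRV
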